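import Pool.Agent.Y667.RZ.Fin2
import Pool.Agent.Y667.BK.Fin
import Pool.Agent.W307.RT.Main4
import Pool.Agent.W672.FK.Lowf

/-!
# The curves of the main theorem with a point of order 4 or 3 are negligible
-/

set_option autoImplicit false

namespace Pool.Agent.Y667.TS

open Finset Filter Pool.Agent.W262.RK Pool.Agent.W307.RT Pool.Agent.W307.SE

/-- a family parametrised by pairs of size `≤ (C H) ^ (1 / 12)` is negligible -/
lemma negl {m : ℕ} {C : ℕ} {F : ℤ × ℤ → ℤ × ℤ} (hinj : ∀ H : ℕ, Set.InjOn F (Cv m H : Set (ℤ × ℤ)))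
    (hb : ∀ H : ℕ, ∀ c ∈ Cv m H, (F c).1.natAbs ^ 12 ≤ C * H ∧ (F c).2.natAbs ^ 12 ≤ C * H) :
    ∀ ε : ℝ, 0 < ε → ∃ H0 : ℕ, ∀ H : ℕ, H0 ≤ H →
      ((Cv m H).card : ℝ) ≤ ε * ((Cv 2 H).card : ℝ) := by
  intro ε hε
  obtain ⟨c, C2, T0, hc, hlow⟩ := Pool.Agent.W672.FK.lowf
  -- for every `H` the largest `T` with `T ^ 12 ≤ (C + 1) * H`
  set C1 := C + 1 with hC1
  set K := (C1 * (C2 + 1)) with hK
  have hK1 : 1 ≤ K := Nat.succ_le_of_lt (Nat.mul_pos (by omega) (by omega))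
  have hT : ∀ H : ℕ, ∃ T : ℕ, T ^ 12 ≤ C1 * H ∧ C1 * H < (T + 1) ^ 12 := by
    intro H
    refine ⟨Nat.findGreatest (fun T => T ^ 12 ≤ C1 * H) (C1 * H), ?_, ?_⟩
    · exact Nat.findGreatest_spec (P := fun T => T ^ 12 ≤ C1 * H) (Nat.zero_le _) (by simp)
    · by_contra hcon
      push Not at hcon
      have h1 : Nat.findGreatest (fun T => T ^ 12 ≤ C1 * H) (C1 * H) + 1 ≤ C1 * H :=
        (Nat.le_self_pow (by norm_num) _).trans hcon
      have h2 := Nat.le_findGreatest (P := fun T => T ^ 12 ≤ C1 * H) h1 hcon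
      omega
  -- a threshold for `T`
  obtain ⟨T1, hT1⟩ : ∃ T1 : ℕ, ∀ T : ℕ, T1 ≤ T →
      T0 ≤ T ^ 2 / K ∧ (2 * (T : ℝ) + 1) ^ 2 ≤ ε * (c * (((T ^ 2 / K : ℕ) : ℝ)) ^ 2) := by
    obtain ⟨n, hn⟩ := exists_nat_gt (36 * (K : ℝ) ^ 2 / (ε * c))
    refine ⟨n + K * (T0 + 1) + 2, fun T hT => ?_⟩
    have hTpos : 1 ≤ T := by omega
    have hKT : K * (T0 + 1) ≤ T := by omega
    have hT2 : T ≤ T ^ 2 := by nlinarith
    have hd : T0 + 1 ≤ T ^ 2 / K := by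
      rw [Nat.le_div_iff_mul_le (by omega)]
      calc (T0 + 1) * K = K * (T0 + 1) := by ring
        _ ≤ T := hKT
        _ ≤ T ^ 2 := hT2
    refine ⟨by omega, ?_⟩
    have h3 : (T : ℝ) ^ 2 ≤ 2 * K * ((T ^ 2 / K : ℕ) : ℝ) := by
      have h4 : T ^ 2 < (T ^ 2 / K + 1) * K := by
        have := Nat.lt_mul_div_succ (T ^ 2) (show 0 < K by omega)
        calc T ^ 2 < K * (T ^ 2 / K + 1) := this
          _ = (T ^ 2 / K + 1) * K := by ring
      have h5 : T ^ 2 ≤ 2 * K * (T ^ 2 / K) := by nlinarith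
      exact_mod_cast h5
    have hKr : (1 : ℝ) ≤ K := by exact_mod_cast hK1
    have hTr : (1 : ℝ) ≤ T := by exact_mod_cast hTpos
    have hnT : (n : ℝ) ≤ T := by
      have : n ≤ T := by omega
      exact_mod_cast this
    have h6 : (T : ℝ) ^ 4 ≤ 4 * K ^ 2 * (((T ^ 2 / K : ℕ) : ℝ)) ^ 2 := by
      have h0 : (0 : ℝ) ≤ (T : ℝ) ^ 2 := by positivity
      calc (T : ℝ) ^ 4 = ((T : ℝ) ^ 2) ^ 2 := by ring
        _ ≤ (2 * K * ((T ^ 2 / K : ℕ) : ℝ)) ^ 2 := pow_le_pow_left₀ h0 h3 2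
        _ = _ := by ring
    have h7 : 36 * (K : ℝ) ^ 2 ≤ ε * c * (T : ℝ) ^ 2 := by
      have h8 : 36 * (K : ℝ) ^ 2 < n * (ε * c) := by
        rw [div_lt_iff₀ (by positivity)] at hn
        exact hn
      calc 36 * (K : ℝ) ^ 2 ≤ n * (ε * c) := h8.le
        _ ≤ T * (ε * c) := by
          apply mul_le_mul_of_nonneg_right hnT (by positivity)
        _ ≤ (T : ℝ) ^ 2 * (ε * c) := by
          apply mul_le_mul_of_nonneg_right _ (by positivity)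
          nlinarith
        _ = _ := by ring
    have h9 : (2 * (T : ℝ) + 1) ^ 2 ≤ 9 * (T : ℝ) ^ 2 := by nlinarith
    have h10 : 36 * (K : ℝ) ^ 2 * (T : ℝ) ^ 2 ≤
        4 * (K : ℝ) ^ 2 * (ε * (c * (((T ^ 2 / K : ℕ) : ℝ)) ^ 2)) := by
      calc 36 * (K : ℝ) ^ 2 * (T : ℝ) ^ 2 ≤ (ε * c * (T : ℝ) ^ 2) * (T : ℝ) ^ 2 := by
            apply mul_le_mul_of_nonneg_right h7 (by positivity)
        _ = ε * c * (T : ℝ) ^ 4 := by ring
        _ ≤ ε * c * (4 * K ^ 2 * (((T ^ 2 / K : ℕ) : ℝ)) ^ 2) := by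
            apply mul_le_mul_of_nonneg_left h6 (by positivity)
        _ = _ := by ring
    have h11 : 9 * (T : ℝ) ^ 2 ≤ ε * (c * (((T ^ 2 / K : ℕ) : ℝ)) ^ 2) := by
      have h12 : (0 : ℝ) < 4 * (K : ℝ) ^ 2 := by positivity
      have h13 : 4 * (K : ℝ) ^ 2 * (9 * (T : ℝ) ^ 2) ≤
          4 * (K : ℝ) ^ 2 * (ε * (c * (((T ^ 2 / K : ℕ) : ℝ)) ^ 2)) := by
        calc 4 * (K : ℝ) ^ 2 * (9 * (T : ℝ) ^ 2) = 36 * (K : ℝ) ^ 2 * (T : ℝ) ^ 2 := by ring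
          _ ≤ _ := h10
      exact le_of_mul_le_mul_left h13 h12
    exact h9.trans h11
  refine ⟨(T1 + 1) ^ 12, fun H hH => ?_⟩
  obtain ⟨T, hTa, hTb⟩ := hT H
  have hTT : T1 ≤ T := by
    by_contra hcon
    push Not at hcon
    have h1 : (T + 1) ^ 12 ≤ (T1 + 1) ^ 12 := Nat.pow_le_pow_left (by omega) 12
    have h2 : H ≤ C1 * H := Nat.le_mul_of_pos_left H (by omega)
    omega
  obtain ⟨k1, k2⟩ := hT1 T hTT
  have h3 : (Cv m H).card ≤ (2 * T + 1) ^ 2 := by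
    have h4 : ((Cv m H).image F) ⊆ (Icc (-(T : ℤ)) T) ×ˢ (Icc (-(T : ℤ)) T) := by
      intro t ht
      obtain ⟨x, hx, rfl⟩ := mem_image.1 ht
      obtain ⟨b1, b2⟩ := hb H x hx
      have e : ∀ y : ℤ, y.natAbs ^ 12 ≤ C * H → -(T : ℤ) ≤ y ∧ y ≤ T := by
        intro y hy
        have h5 : y.natAbs < T + 1 := by
          refine lt_of_pow_lt_pow_left₀ 12 (by omega) (lt_of_le_of_lt hy (lt_of_le_of_lt ?_ hTb))
          exact Nat.mul_le_mul_right H (by omega)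
        omega
      rw [mem_product, mem_Icc, mem_Icc]
      exact ⟨e _ b1, e _ b2⟩
    have h5 : (Cv m H).card = ((Cv m H).image F).card := (card_image_of_injOn (hinj H)).symm
    rw [h5]
    refine (card_le_card h4).trans ?_
    rw [card_product, Int.card_Icc]
    have : ((T : ℤ) + 1 - -(T : ℤ)).toNat = 2 * T + 1 := by omega
    rw [this]
    exact le_of_eq (by ring)
  have h6 : c * ((T ^ 2 / K : ℕ) : ℝ) ^ 2 ≤ ((Cv 2 H).card : ℝ) := by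
    refine hlow _ H k1 ?_
    have h7 : (T ^ 2 / K) * K ≤ T ^ 2 := Nat.div_mul_le_self _ _
    have h8 : ((T ^ 2 / K) * K) ^ 6 ≤ C1 * H := by
      calc ((T ^ 2 / K) * K) ^ 6 ≤ (T ^ 2) ^ 6 := Nat.pow_le_pow_left h7 6
        _ = T ^ 12 := by ring
        _ ≤ C1 * H := hTa
    have h9 : K ≤ K ^ 6 := Nat.le_self_pow (by norm_num) K
    have h10 : (T ^ 2 / K) ^ 6 * (C1 * (C2 + 1)) ≤ C1 * H := by
      calc (T ^ 2 / K) ^ 6 * (C1 * (C2 + 1)) = (T ^ 2 / K) ^ 6 * K := by rw [hK]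
        _ ≤ (T ^ 2 / K) ^ 6 * K ^ 6 := Nat.mul_le_mul_left _ h9
        _ = ((T ^ 2 / K) * K) ^ 6 := by ring
        _ ≤ C1 * H := h8
    have h11 : C1 * ((C2 + 1) * (T ^ 2 / K) ^ 6) ≤ C1 * H := by
      calc C1 * ((C2 + 1) * (T ^ 2 / K) ^ 6) = (T ^ 2 / K) ^ 6 * (C1 * (C2 + 1)) := by ring
        _ ≤ _ := h10
    have h12 : (C2 + 1) * (T ^ 2 / K) ^ 6 ≤ H := Nat.le_of_mul_le_mul_left h11 (by omega)
    calc C2 * (T ^ 2 / K) ^ 6 ≤ (C2 + 1) * (T ^ 2 / K) ^ 6 := Nat.mul_le_mul_right _ (by omega)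
      _ ≤ H := h12
  calc ((Cv m H).card : ℝ) ≤ (2 * (T : ℝ) + 1) ^ 2 := by exact_mod_cast h3
    _ ≤ ε * (c * (((T ^ 2 / K : ℕ) : ℝ)) ^ 2) := k2
    _ ≤ ε * ((Cv 2 H).card : ℝ) := mul_le_mul_of_nonneg_left h6 hε.le

lemma negl4 : ∀ ε : ℝ, 0 < ε → ∃ H0 : ℕ, ∀ H : ℕ, H0 ≤ H →
    ((Cv 4 H).card : ℝ) ≤ ε * ((Cv 2 H).card : ℝ) := by
  obtain ⟨C, F, h⟩ := Pool.Agent.W605.RT.par4_of Pool.Agent.W261.RT.iso
  exact negl (C := C) (F := F) (fun H => (h H).1) fun H c hc =>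
    ⟨((h H).2 c hc).2.2.2.2.1, ((h H).2 c hc).2.2.2.2.2.1⟩

lemma negl6 : ∀ ε : ℝ, 0 < ε → ∃ H0 : ℕ, ∀ H : ℕ, H0 ≤ H →
    ((Cv 6 H).card : ℝ) ≤ ε * ((Cv 2 H).card : ℝ) := by
  obtain ⟨C, F, h⟩ := Pool.Agent.W135.RT.par6_of Pool.Agent.W261.RT.iso
  have e : ∀ (y : ℕ) (n : ℕ), y ^ 24 ≤ n → y ^ 12 ≤ n := by
    intro y n hy
    rcases Nat.eq_zero_or_pos y with rfl | hy0
    · simp
    · exact (Nat.pow_le_pow_right hy0 (by norm_num)).trans hy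
  exact negl (C := C) (F := F) (fun H => (h H).1) fun H c hc =>
    ⟨e _ _ ((h H).2 c hc).2.2.2.2.1, e _ _ ((h H).2 c hc).2.2.2.2.2.1⟩

lemma mem_Cv {c : ℤ × ℤ} {m H : ℕ} (hc : c ∈ Cv 2 H) (h : HasT m (Sh c.1 c.2)) : c ∈ Cv m H := by
  classical
  unfold Cv at hc ⊢
  rw [mem_filter] at hc ⊢
  exact ⟨hc.1, hc.2.1, hc.2.2.1, hc.2.2.2.1, hc.2.2.2.2.1, h⟩

open Classical in
/-- the main theorem with the condition on the torsion -/
theorem curvesT : ∃ c : ℝ, 0 < c ∧ ∃ H0 : ℕ, ∀ H : ℕ, H0 ≤ H →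
    c * ((Cv 2 H).card : ℝ) ≤ (((Cv 2 H).filter (fun k : ℤ × ℤ => (SelR k.1 k.2).Finite ∧
      (SelR k.1 k.2).ncard = 4 ∧ Module.finrank ℤ (Sh k.1 k.2).toAffine.Point = 0 ∧
      ¬ HasT 4 (Sh k.1 k.2) ∧ ¬ HasT 6 (Sh k.1 k.2))).card : ℝ) := by
  obtain ⟨c, hc, H0, h⟩ := Pool.Agent.Y667.RZ.curvesW
  obtain ⟨H1, h1⟩ := negl4 (c / 4) (by positivity)
  obtain ⟨H2, h2⟩ := negl6 (c / 4) (by positivity)
  refine ⟨c / 2, by positivity, H0 + H1 + H2, fun H hH => ?_⟩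
  have a0 := (h H (by omega)).1
  have a1 := h1 H (by omega)
  have a2 := h2 H (by omega)
  have a3 : ((Cv 2 H).filter (fun k : ℤ × ℤ => (SelR k.1 k.2).Finite ∧
      (SelR k.1 k.2).ncard = 4 ∧ Module.finrank ℤ (Sh k.1 k.2).toAffine.Point = 0)) ⊆
      ((Cv 2 H).filter (fun k : ℤ × ℤ => (SelR k.1 k.2).Finite ∧
      (SelR k.1 k.2).ncard = 4 ∧ Module.finrank ℤ (Sh k.1 k.2).toAffine.Point = 0 ∧
      ¬ HasT 4 (Sh k.1 k.2) ∧ ¬ HasT 6 (Sh k.1 k.2))) ∪ (Cv 4 H ∪ Cv 6 H) := by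
    intro k hk
    obtain ⟨hk1, hk2, hk3, hk4⟩ := mem_filter.1 hk
    rw [mem_union, mem_union]
    by_cases c4 : HasT 4 (Sh k.1 k.2)
    · exact Or.inr (Or.inl (mem_Cv hk1 c4))
    by_cases c6 : HasT 6 (Sh k.1 k.2)
    · exact Or.inr (Or.inr (mem_Cv hk1 c6))
    · exact Or.inl (mem_filter.2 ⟨hk1, hk2, hk3, hk4, c4, c6⟩)
  have a4 := (card_le_card a3).trans ((card_union_le _ _).trans
    (Nat.add_le_add_left (card_union_le _ _) _))
  have a5 : (((Cv 2 H).filter (fun k : ℤ × ℤ => (SelR k.1 k.2).Finite ∧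
      (SelR k.1 k.2).ncard = 4 ∧ Module.finrank ℤ (Sh k.1 k.2).toAffine.Point = 0)).card : ℝ) ≤
      (((Cv 2 H).filter (fun k : ℤ × ℤ => (SelR k.1 k.2).Finite ∧
      (SelR k.1 k.2).ncard = 4 ∧ Module.finrank ℤ (Sh k.1 k.2).toAffine.Point = 0 ∧
      ¬ HasT 4 (Sh k.1 k.2) ∧ ¬ HasT 6 (Sh k.1 k.2))).card : ℝ) +
        (((Cv 4 H).card : ℝ) + ((Cv 6 H).card : ℝ)) := by exact_mod_cast a4
  linarith

/-- no element of order 3 or 4 -/
lemma ord_of {G : Type} [AddCommGroup G]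
    (h2 : ∃ P Q : G, addOrderOf P = 2 ∧ addOrderOf Q = 2 ∧ Q ∉ AddSubgroup.zmultiples P)
    (h4 : ¬ ∃ P Q : G, addOrderOf P = 4 ∧ addOrderOf Q = 2 ∧ Q ∉ AddSubgroup.zmultiples P)
    (h6 : ¬ ∃ P Q : G, addOrderOf P = 6 ∧ addOrderOf Q = 2 ∧ Q ∉ AddSubgroup.zmultiples P) :
    ∀ R : G, addOrderOf R ≠ 4 ∧ addOrderOf R ≠ 3 := by
  classical
  obtain ⟨P, Q, hP, hQ, hPQ⟩ := h2
  -- there is no element of order 4
  have n4 : ∀ R : G, addOrderOf R ≠ 4 := by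
    intro R hR
    by_cases hPR : P ∈ AddSubgroup.zmultiples R
    · by_cases hQR : Q ∈ AddSubgroup.zmultiples R
      · -- a cyclic group has only one element of order two
        have key : ∀ X : G, addOrderOf X = 2 → X ∈ AddSubgroup.zmultiples R → X = 2 • R := by
          intro X hX hXR
          obtain ⟨k, rfl⟩ := AddSubgroup.mem_zmultiples_iff.1 hXR
          have h1 : (2 : ℤ) • (k • R) = 0 := by
            have := addOrderOf_nsmul_eq_zero (k • R)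
            rw [hX] at this
            exact_mod_cast this
          rw [smul_smul, ← addOrderOf_dvd_iff_zsmul_eq_zero, hR] at h1
          have h2 : k • R ≠ 0 := by
            intro h
            rw [h, addOrderOf_zero] at hX
            omega
          have h3 : ¬ ((addOrderOf R : ℕ) : ℤ) ∣ k := by
            intro h
            exact h2 (addOrderOf_dvd_iff_zsmul_eq_zero.1 h)
          rw [hR] at h3
          have h4 : ((addOrderOf R : ℕ) : ℤ) ∣ k - 2 := by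
            rw [hR]
            push_cast at h1 h3 ⊢
            omega
          have h5 := addOrderOf_dvd_iff_zsmul_eq_zero.1 h4
          rw [sub_zsmul] at h5
          rw [add_neg_eq_zero.1 h5]
          exact natCast_zsmul R 2
        apply hPQ
        rw [key P hP hPR, key Q hQ hQR]
        exact AddSubgroup.mem_zmultiples _
      · exact h4 ⟨R, Q, hR, hQ, hQR⟩
    · exact h4 ⟨R, P, hR, hP, hPR⟩
  have n3 : ∀ R : G, addOrderOf R ≠ 3 := by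
    intro R hR
    have h1 : addOrderOf (R + P) = 6 := by
      rw [(AddCommute.all R P).addOrderOf_add_eq_mul_addOrderOf_of_coprime (by
        rw [hR, hP]
        decide), hR, hP]
    refine h6 ⟨R + P, Q, h1, hQ, fun h => ?_⟩
    obtain ⟨k, hk⟩ := AddSubgroup.mem_zmultiples_iff.1 h
    have h2 : (2 : ℤ) • (k • (R + P)) = 0 := by
      rw [hk]
      have := addOrderOf_nsmul_eq_zero Q
      rw [hQ] at this
      exact_mod_cast this
    rw [smul_smul, ← addOrderOf_dvd_iff_zsmul_eq_zero, h1] at h2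
    obtain ⟨l, hl⟩ : ∃ l : ℤ, k = 3 * l := ⟨k / 3, by
      push_cast at h2
      omega⟩
    apply hPQ
    rw [← hk, hl, mul_comm, mul_zsmul, zsmul_add]
    have h3 : (3 : ℤ) • R = 0 := by
      have := addOrderOf_nsmul_eq_zero R
      rw [hR] at this
      exact_mod_cast this
    rw [h3, zero_add]
    exact AddSubgroup.zsmul_mem _ (AddSubgroup.zsmul_mem _ (AddSubgroup.mem_zmultiples P) _) _
  exact fun R => ⟨n4 R, n3 R⟩

end Pool.Agent.Y667.TS
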